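import Pool.Agent.W353.AB.Transfer
import Pool.Agent.W353.TP.VD
import Pool.Agent.H126U.End

/-! All cohomology groups of products of twists of hyperelliptic curves, over all number fields
containing `K`. -/

set_option autoImplicit false

namespace Pool.Agent.W353.AB

open Complex Filter Topology ComplexConjugate NumberField IsDedekindDomain Pool.Agent.H341R2
  Asymptotics Polynomial Pool.Agent.W353.TP
open Pool.Agent.H921R2.TatePole (nm two_le_nm R hc R_eq_hc R_le kerPrime hom_finite C0)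
open Pool.Agent.H126U (idx mult mult0)
open Pool.Agent.H126T (order_limit)

section
variable {K F : Type} [Field K] [NumberField K] [Field F] [NumberField F]

open Classical in
/-- the untwisted coefficients over the base field -/
noncomputable def tti (i : ℕ) {r : ℕ} (f : Fin r → (𝓞 K)[X]) (A : Finset (Fin r)) (x : HX K) : ℂ :=
  if ∀ j ∈ A, x.2 2 ≠ 0 ∧ x.2 (f j).leadingCoeff ≠ 0
    then (((mult r i A.card * (∏ j ∈ A, -(SH (f j) x : ℝ)) *
      (Real.sqrt (x.1 : ℕ) ^ A.card)⁻¹ : ℝ)) : ℂ) else 0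

theorem tti_ker (i : ℕ) {r : ℕ} (ι : 𝓞 K →+* 𝓞 F) (hι : Function.Injective ι)
    (f : Fin r → (𝓞 K)[X]) (A : Finset (Fin r)) (p : Nat.Primes) (ψ : 𝓞 F →+* ZMod (p : ℕ)) :
    Pool.Agent.H126U.tt i (fun j => (f j).map ι) A (kerPrime p ψ).1.1 =
      tti i f A ⟨p, ψ.comp ι⟩ := by
  unfold Pool.Agent.H126U.tt tti
  have h1 : (∀ j ∈ A, (2 : 𝓞 F) ∉ (kerPrime p ψ).1.1.asIdeal ∧
      ((f j).map ι).leadingCoeff ∉ (kerPrime p ψ).1.1.asIdeal) ↔
      ∀ j ∈ A, ((ψ.comp ι) 2 ≠ 0 ∧ (ψ.comp ι) (f j).leadingCoeff ≠ 0) := by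
    refine forall₂_congr fun j _ => ?_
    rw [mem_ker_iff, mem_ker_iff, Polynomial.leadingCoeff_map_of_injective hι,
      RingHom.comp_apply, RingHom.comp_apply, map_ofNat ι]
  by_cases h : ∀ j ∈ A, ((ψ.comp ι) 2 ≠ 0 ∧ (ψ.comp ι) (f j).leadingCoeff ≠ 0)
  · have h2 : ∏ j ∈ A, -(Pool.Agent.H126T.Sv ((f j).map ι) (kerPrime p ψ).1.1 : ℝ) =
        ∏ j ∈ A, -(SH (f j) ⟨p, ψ.comp ι⟩ : ℝ) :=
      Finset.prod_congr rfl fun j _ => by rw [Sv_ker]
    rw [if_pos (h1.2 h), if_pos h, nm_kerPrime, h2]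
  · rw [if_neg (fun h' => h (h1.1 h')), if_neg h]

theorem norm_tti {i r : ℕ} {f : Fin r → (𝓞 K)[X]} (hodd : ∀ j, Odd (f j).natDegree)
    (h3 : ∀ j, 3 ≤ (f j).natDegree) (A : Finset (Fin r)) (x : HX K) :
    ‖tti i f A x‖ ≤ Pool.Agent.H126U.bb i f A := by
  rcases x with ⟨p, φ⟩
  have h1 := tti_ker i (RingHom.id (𝓞 K)) Function.injective_id f A p φ
  rw [RingHom.comp_id] at h1
  have h2 : (fun i => (f i).map (RingHom.id (𝓞 K))) = f := by
    funext i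
    exact Polynomial.map_id
  rw [h2] at h1
  rw [← h1]
  exact Pool.Agent.H126U.norm_tt hodd h3 A _

/-- the system of `Hⁱ` of a product of hyperelliptic curves -/
noncomputable def syH (i : ℕ) {r : ℕ} (f : Fin r → (𝓞 K)[X]) (hodd : ∀ j, Odd (f j).natDegree)
    (h3 : ∀ j, 3 ≤ (f j).natDegree) : Sy K where
  ι := Finset (Fin r)
  P := idx r i
  r := r
  A A := A
  T := tti i f
  b := Pool.Agent.H126U.bb i f
  hb A _ := Pool.Agent.H126U.bb_nonneg h3 A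
  hT A _ x := norm_tti hodd h3 A x

end

section
variable {K F : Type} [Field K] [NumberField K] [Field F] [NumberField F] [Algebra K F]

theorem bcU_bb (i : ℕ) {r : ℕ} (f : Fin r → (𝓞 K)[X]) (A : Finset (Fin r)) :
    Pool.Agent.H126U.bb i (bc F f) A = Pool.Agent.H126U.bb i f A := by
  unfold Pool.Agent.H126U.bb
  congr 1
  exact Finset.prod_congr rfl fun j _ => by rw [bc_natDegree]

/-- the size of `L(Hⁱ)` over `F`, the trivial part removed -/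
noncomputable def XHi (i : ℕ) {r : ℕ} (f : Fin r → (𝓞 K)[X]) (F : Type) [Field F] [NumberField F]
    [Algebra K F] (d : Fin r → 𝓞 F) (S : Finset (HeightOneSpectrum (𝓞 F)))
    (B : HeightOneSpectrum (𝓞 F) → ℂ[X]) (τ ε : ℝ) : ℝ := by
  classical
  exact Real.log ‖Pool.Agent.H126U.LL i (bc F f) d S B ((i : ℂ) / 2 + 1 + τ * I + ε)‖ /
    Real.log (1 / ε) - if τ = 0 then (mult0 r i : ℝ) else 0

theorem size_Hi (i : ℕ) {r : ℕ} {f : Fin r → (𝓞 K)[X]} (hodd : ∀ j, Odd (f j).natDegree)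
    (h3 : ∀ j, 3 ≤ (f j).natDegree) {d : Fin r → 𝓞 F} {S : Finset (HeightOneSpectrum (𝓞 F))}
    (hS : ∀ v, v ∉ S → Pool.Agent.H126U.Gd (bc F f) d v)
    (B : HeightOneSpectrum (𝓞 F) → ℂ[X]) (τ : ℝ)
    (hB : ∀ v ∈ S, (B v).eval (((nm v : ℕ) : ℂ) ^ (-((i : ℂ) / 2 + 1 + τ * I))) ≠ 0) :
    (∀ᶠ ε : ℝ in 𝓝[>] 0,
      Pool.Agent.H126U.LL i (bc F f) d S B ((i : ℂ) / 2 + 1 + τ * I + ε) ≠ 0) ∧
    (syH i f hodd h3).IsSize (F := F) d τ (XHi i f F d S B τ) := by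
  classical
  have hodd' : ∀ i, Odd (bc F f i).natDegree := fun i => by rw [bc_natDegree]; exact hodd i
  have h3' : ∀ i, 3 ≤ (bc F f i).natDegree := fun i => by rw [bc_natDegree]; exact h3 i
  obtain ⟨C', hC'⟩ := Pool.Agent.H126U.LL_log (i := i) hodd' h3' hS B τ hB
  refine ⟨hC'.mono fun ε h => h.1, ?_⟩
  have o1 : (fun ε : ℝ => (sysK F).E ε (fun v => (Pool.Agent.H126U.aa i (bc F f) d S τ v).re) -
      Real.log ‖Pool.Agent.H126U.LL i (bc F f) d S B ((i : ℂ) / 2 + 1 + τ * I + ε)‖)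
      =o[𝓝[>] 0] LL :=
    bdd_isLittleO ⟨C', hC'.mono fun ε h => h.2⟩
  have o2 := small_isLittleO (sysK F) (u := fun ε => (sysK F).E ε
      (fun v => (Pool.Agent.H126U.aa i (bc F f) d S τ v).re) -
      (if τ = 0 then (mult0 r i : ℝ) else 0) * (sysK F).lam ε -
      ∑ A ∈ idx r i, (sysK F).E ε fun v => (Pool.Agent.H126U.tt i (bc F f) A v *
        conj (Pool.Agent.H126U.ww d τ A v)).re)
      (fun η hη => Pool.Agent.H126U.mean_aa (i := i) hodd' h3' hS τ hη)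
  have o3 : (fun ε => (if τ = 0 then (mult0 r i : ℝ) else 0) * ((sysK F).lam ε - LL ε))
      =o[𝓝[>] 0] LL := (lamS_sub (sysK F)).const_mul_left _
  have o4 : (fun ε => ∑ A ∈ idx r i, (((sysK F).E ε fun v => (Pool.Agent.H126U.tt i (bc F f) A v *
        conj (Pool.Agent.H126U.ww d τ A v)).re) -
      (sysH K).E ε fun x : HX K => (tti i f A x * conj (vq K (∏ j ∈ A, d j) τ x)).re))
      =o[𝓝[>] 0] LL :=
    fsum_isLittleO _ fun A _ => corr_gen (K := K) (Pool.Agent.H126U.tt i (bc F f) A) (tti i f A)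
      (b := Pool.Agent.H126U.bb i (bc F f) A)
      (fun v => Pool.Agent.H126U.norm_tt hodd' h3' A v)
      (fun p ψ => tti_ker i (algebraMap (𝓞 K) (𝓞 F)) alg_inj f A p ψ)
      (∏ j ∈ A, d j) τ (Pool.Agent.H126U.ww d τ A) (fun v => rfl)
  unfold Sy.IsSize
  refine (((o2.sub o1).add o3).add o4).congr' ?_ (EventuallyEq.refl _ _)
  filter_upwards [LL_tendsto.eventually_gt_atTop 0] with ε hL
  have e1 : XHi i f F d S B τ ε * LL ε =
      Real.log ‖Pool.Agent.H126U.LL i (bc F f) d S B ((i : ℂ) / 2 + 1 + τ * I + ε)‖ -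
        (if τ = 0 then (mult0 r i : ℝ) else 0) * LL ε := by
    unfold XHi
    change (_ / LL ε - _) * LL ε = _
    rw [sub_mul, div_mul_cancel₀ _ hL.ne']
  rw [e1, Finset.sum_sub_distrib]
  have e2 : (syH i f hodd h3).corr (F := F) d τ ε = ∑ A ∈ idx r i,
      (sysH K).E ε fun x : HX K => (tti i f A x * conj (vq K (∏ j ∈ A, d j) τ x)).re := rfl
  rw [e2]
  ring

/-- the order of a continuation is the limit of the sizes -/
theorem order_Hi (i : ℕ) {r : ℕ} {f : Fin r → (𝓞 K)[X]} (hodd : ∀ j, Odd (f j).natDegree)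
    (h3 : ∀ j, 3 ≤ (f j).natDegree) {d : Fin r → 𝓞 F} {S : Finset (HeightOneSpectrum (𝓞 F))}
    (hS : ∀ v, v ∉ S → Pool.Agent.H126U.Gd (bc F f) d v)
    (B : HeightOneSpectrum (𝓞 F) → ℂ[X]) (τ : ℝ)
    (hB : ∀ v ∈ S, (B v).eval (((nm v : ℕ) : ℂ) ^ (-((i : ℂ) / 2 + 1 + τ * I))) ≠ 0)
    (Λ : ℂ → ℂ) (h1 : MeromorphicAt Λ ((i : ℂ) / 2 + 1 + τ * I))
    (h2 : ∀ᶠ s in 𝓝 ((i : ℂ) / 2 + 1 + τ * I), (i : ℝ) / 2 + 1 < s.re →
      Λ s = Pool.Agent.H126U.LL i (bc F f) d S B s) {m : ℤ}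
    (hm : meromorphicOrderAt Λ ((i : ℂ) / 2 + 1 + τ * I) = m) [Decidable (τ = 0)] :
    Tendsto (XHi i f F d S B τ) (𝓝[>] 0)
      (𝓝 (-(m : ℝ) - if τ = 0 then (mult0 r i : ℝ) else 0)) := by
  obtain ⟨hne, _⟩ := size_Hi i hodd h3 hS B τ hB
  obtain ⟨m', h3', h4⟩ := order_limit h1
    (fun ε : ℝ => Pool.Agent.H126U.LL i (bc F f) d S B ((i : ℂ) / 2 + 1 + τ * I + ε)) hne (by
      filter_upwards [(path_tendsto' ((i : ℂ) / 2 + 1 + τ * I)).eventually h2,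
        self_mem_nhdsWithin] with ε h1 h2
      have hε : (0 : ℝ) < ε := h2
      refine h1 ?_
      have h5 : ((i : ℂ) / 2) = (((i : ℝ) / 2 : ℝ) : ℂ) := by push_cast; rfl
      rw [h5]
      simp
      exact hε)
  rw [hm] at h3'
  have h5 : m = m' := by exact_mod_cast h3'
  subst h5
  have h6 := h4.sub_const (if τ = 0 then (mult0 r i : ℝ) else 0)
  refine h6.congr fun ε => ?_
  unfold XHi
  congr 1
  by_cases h : τ = 0
  · rw [if_pos h, if_pos h]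
  · rw [if_neg h, if_neg h]

/-- orders defined by limits along the real direction -/
theorem limit_Hi (i : ℕ) {r : ℕ} {f : Fin r → (𝓞 K)[X]} (hodd : ∀ j, Odd (f j).natDegree)
    (h3 : ∀ j, 3 ≤ (f j).natDegree) {d : Fin r → 𝓞 F} {S : Finset (HeightOneSpectrum (𝓞 F))}
    (hS : ∀ v, v ∉ S → Pool.Agent.H126U.Gd (bc F f) d v)
    (B : HeightOneSpectrum (𝓞 F) → ℂ[X]) (τ : ℝ)
    (hB : ∀ v ∈ S, (B v).eval (((nm v : ℕ) : ℂ) ^ (-((i : ℂ) / 2 + 1 + τ * I))) ≠ 0)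
    (m : ℤ) (a : ℂ) (ha : a ≠ 0) (h : Tendsto (fun ε : ℝ => (ε : ℂ) ^ (-m) *
      Pool.Agent.H126U.LL i (bc F f) d S B ((i : ℂ) / 2 + 1 + τ * I + ε)) (𝓝[>] 0) (𝓝 a))
    [Decidable (τ = 0)] :
    Tendsto (XHi i f F d S B τ) (𝓝[>] 0)
      (𝓝 (-(m : ℝ) - if τ = 0 then (mult0 r i : ℝ) else 0)) := by
  obtain ⟨hne, _⟩ := size_Hi i hodd h3 hS B τ hB
  have h4 := Pool.Agent.H126U.limit_order _ hne m a ha h
  have h6 := h4.sub_const (if τ = 0 then (mult0 r i : ℝ) else 0)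
  refine h6.congr fun ε => ?_
  unfold XHi
  congr 1
  by_cases h : τ = 0
  · rw [if_pos h, if_pos h]
  · rw [if_neg h, if_neg h]

end

end Pool.Agent.W353.AB
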