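import Pool.Agent.W353.AB.Rel
import Pool.Agent.W353.TP.Types
import Pool.Agent.W353.TP.Final

/-! One finite extension governs the sizes: final form, without ultrafilters. -/

set_option autoImplicit false

namespace Pool.Agent.W353.AB

open Complex Filter Topology ComplexConjugate NumberField IsDedekindDomain Pool.Agent.H341R2
  Asymptotics Pool.Agent.W353.TP

section
variable {K : Type} [Field K] [NumberField K]

/-- twists over subfields of `M` -/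
structure SubT (M : IntermediateField K (Om K)) (r : ℕ) where
  G : IntermediateField K (Om K)
  le : G ≤ M
  nf : NumberField G
  e : Fin r → 𝓞 G
  he : ∀ i, e i ≠ 0

/-- the values of the invariants of a twist -/
abbrev InvT (𝒮 : Sy K) (M : IntermediateField K (Om K)) : Type :=
  ((M ≃ₐ[K] M) → Prop) × (𝒮.P → Prop) × (𝒮.P → (M ≃ₐ[K] M) → Prop)

/-- the invariants of a twist -/
def SubT.ty (𝒮 : Sy K) {M : IntermediateField K (Om K)} (s : SubT M 𝒮.r) : InvT 𝒮 M :=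
  (fun σ => ∀ x : M, (x : Om K) ∈ s.G → σ x = x, fun j => ∃ t ∈ M, t ^ 2 = prA 𝒮 s.e j,
    fun j σ => ∃ t : M, (t : Om K) ^ 2 = prA 𝒮 s.e j ∧ σ t = t)

variable {𝒮 : Sy K}

theorem tyA_field {M : IntermediateField K (Om K)} [FiniteDimensional K M] [Normal K M]
    {s s' : SubT M 𝒮.r} (h : s.ty 𝒮 = s'.ty 𝒮) : s.G ≤ s'.G := by
  intro x hx
  have h1 : ∀ σ : M ≃ₐ[K] M, (∀ x : M, (x : Om K) ∈ s.G → σ x = x) =
      (∀ x : M, (x : Om K) ∈ s'.G → σ x = x) := fun σ => congrFun (congrArg Prod.fst h) σ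
  refine mem_of_fix M s'.G ⟨x, s.le hx⟩ fun σ hσ => ?_
  have h2 := hσ
  rw [← h1 σ] at h2
  exact h2 ⟨x, s.le hx⟩ hx

theorem tyA_in {M : IntermediateField K (Om K)} {s s' : SubT M 𝒮.r} (h : s.ty 𝒮 = s'.ty 𝒮)
    (j : 𝒮.P) : (∃ t ∈ M, t ^ 2 = prA 𝒮 s.e j) ↔ (∃ t ∈ M, t ^ 2 = prA 𝒮 s'.e j) :=
  iff_of_eq (congrFun (congrArg (fun T : InvT 𝒮 M => T.2.1) h) j)

theorem prA_mem {G : IntermediateField K (Om K)} (e : Fin 𝒮.r → 𝓞 G) (j : 𝒮.ι) :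
    prA 𝒮 e j ∈ G := ((𝒮.D e j : 𝓞 G) : G).2

theorem tyA_sq {M : IntermediateField K (Om K)} [FiniteDimensional K M] [Normal K M]
    {s s' : SubT M 𝒮.r} (h : s.ty 𝒮 = s'.ty 𝒮) (j : 𝒮.P)
    (hj : ∃ t ∈ M, t ^ 2 = prA 𝒮 s.e j) :
    ∃ u ∈ s.G, u ^ 2 = prA 𝒮 s.e j * prA 𝒮 s'.e j := by
  have hG : s.G = s'.G := le_antisymm (tyA_field h) (tyA_field h.symm)
  obtain ⟨t, htM, ht⟩ := hj
  obtain ⟨t', htM', ht'⟩ := (tyA_in h j).1 ⟨t, htM, ht⟩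
  refine ⟨t * t', ?_, by rw [mul_pow, ht, ht']⟩
  have key : ∀ (u u' : M) (p : Om K), (u : Om K) ^ 2 = p → (u' : Om K) ^ 2 = p →
      u = u' ∨ u = -u' := by
    intro u u' p h1 h2
    have h3 : u ^ 2 = u' ^ 2 := Subtype.ext (by push_cast; rw [h1, h2])
    exact sq_eq_sq_iff_eq_or_eq_neg.1 h3
  refine mem_of_fix M s.G (⟨t, htM⟩ * ⟨t', htM'⟩) fun σ hσ => ?_
  have h1 : ∀ (u : M) (p : Om K), p ∈ s.G → (u : Om K) ^ 2 = p → σ u = u ∨ σ u = -u := by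
    intro u p hp hu
    refine key (σ u) u p ?_ hu
    have h2 : u ^ 2 = ⟨p, s.le hp⟩ := Subtype.ext (by push_cast; exact hu)
    have h3 : (σ u) ^ 2 = ⟨p, s.le hp⟩ := by
      rw [← map_pow, h2]
      exact hσ _ hp
    have := congrArg (fun x : M => (x : Om K)) h3
    push_cast at this
    exact this
  have h2 : (∃ u : M, (u : Om K) ^ 2 = prA 𝒮 s.e j ∧ σ u = u) =
      (∃ u : M, (u : Om K) ^ 2 = prA 𝒮 s'.e j ∧ σ u = u) :=
    congrFun (congrFun (congrArg (fun T : InvT 𝒮 M => T.2.2) h) j) σ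
  have h3 : ∀ (v : M) (p : Om K), p ∈ s.G → (v : Om K) ^ 2 = p →
      ((∃ u : M, (u : Om K) ^ 2 = p ∧ σ u = u) ↔ σ v = v) := by
    intro v p hp hv
    constructor
    · rintro ⟨u, hu, hσu⟩
      rcases key v u p hv hu with rfl | rfl
      · exact hσu
      · rw [map_neg, hσu]
    · intro h
      exact ⟨v, hv, h⟩
  have h4 := h3 ⟨t, htM⟩ _ (prA_mem s.e j) ht
  have h5 := h3 ⟨t', htM'⟩ _ (by rw [hG]; exact prA_mem s'.e j) ht'
  rw [map_mul]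
  rcases h1 ⟨t, htM⟩ _ (prA_mem s.e j) ht with h6 | h6
  · have h7 : σ ⟨t', htM'⟩ = ⟨t', htM'⟩ := h5.1 (h2 ▸ h4.2 h6)
    rw [h6, h7]
  · rcases h1 ⟨t', htM'⟩ _ (by rw [hG]; exact prA_mem s'.e j) ht' with h7 | h7
    · have h8 : σ ⟨t, htM⟩ = ⟨t, htM⟩ := h4.1 (h2 ▸ h5.2 h7)
      rw [h8, h7]
    · rw [h6, h7, neg_mul_neg]

theorem finite_list (𝒮 : Sy K) (M : IntermediateField K (Om K)) [FiniteDimensional K M]
    [Normal K M] :
    ∃ (l : ℕ) (s : Fin l → SubT M 𝒮.r),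
      l ≤ 2 ^ ((𝒮.P.card + 1) * (Module.finrank K M + 1)) ∧
      ∀ (F : IntermediateField K (Om K)) [NumberField F] (d : Fin 𝒮.r → 𝓞 F), (∀ i, d i ≠ 0) →
        ∃ a, (s a).G = F ⊓ M ∧ Rel 𝒮 M d (s a).e := by
  classical
  have hsep : Algebra.IsSeparable K M := inferInstance
  have hG : IsGalois K M := IsGalois.mk
  have hfin : Finite (InvT 𝒮 M) := inferInstance
  let R : Set (InvT 𝒮 M) := Set.range (SubT.ty 𝒮 : SubT M 𝒮.r → InvT 𝒮 M)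
  have hRf : Finite R := inferInstance
  let φ := Finite.equivFin R
  have hch : ∀ a : Fin (Nat.card R), ∃ s : SubT M 𝒮.r, s.ty 𝒮 = (φ.symm a : InvT 𝒮 M) :=
    fun a => (φ.symm a).2
  choose s hs using hch
  refine ⟨Nat.card R, s, ?_, ?_⟩
  · have h1 : Nat.card R ≤ Nat.card (InvT 𝒮 M) :=
      Nat.card_le_card_of_injective _ Subtype.val_injective
    refine h1.trans ?_
    have hP : Nat.card Prop = 2 := by
      rw [Nat.card_eq_fintype_card]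
      exact Fintype.card_prop
    have hM : Nat.card (M ≃ₐ[K] M) = Module.finrank K M := IsGalois.card_aut_eq_finrank K M
    have hr : Nat.card 𝒮.P = 𝒮.P.card := by
      rw [Nat.card_eq_fintype_card, Fintype.card_coe]
    rw [Nat.card_prod, Nat.card_prod, Nat.card_fun, Nat.card_fun, Nat.card_fun, Nat.card_fun,
      hP, hM, hr, ← pow_mul, ← pow_add, ← pow_add]
    refine Nat.pow_le_pow_right (by norm_num) ?_
    nlinarith
  · intro F _ d hd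
    have hle : F ⊓ M ≤ M := inf_le_right
    have hF : FiniteDimensional K (F ⊓ M : IntermediateField K (Om K)) :=
      FiniteDimensional.of_injective (IntermediateField.inclusion hle).toLinearMap
        (IntermediateField.inclusion_injective hle)
    have hnf : NumberField (F ⊓ M : IntermediateField K (Om K)) :=
      NumberField.of_module_finite K _
    obtain ⟨e, he, hR⟩ := exists_rel 𝒮 M F (F ⊓ M) rfl d hd
    let s₀ : SubT M 𝒮.r := ⟨F ⊓ M, inf_le_right, hnf, e, he⟩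
    let a := φ ⟨s₀.ty 𝒮, Set.mem_range_self s₀⟩
    have ha : (s a).ty 𝒮 = s₀.ty 𝒮 := by
      rw [hs a, φ.symm_apply_apply]
    have hGa : (s a).G = F ⊓ M := le_antisymm (tyA_field ha) (tyA_field ha.symm)
    refine ⟨a, hGa, fun j hj => ?_⟩
    rcases hR j hj with ⟨⟨u, huF, hu⟩, ht⟩ | ⟨h1, h2⟩
    · left
      have ht0 : ∃ t ∈ M, t ^ 2 = prA 𝒮 s₀.e j := ht
      obtain ⟨v, hvG, hv⟩ := tyA_sq (s := s₀) (s' := s a) ha.symm ⟨j, hj⟩ ht0
      have hvF : v ∈ F := (inf_le_left : F ⊓ M ≤ F) hvG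
      have h0 : prA 𝒮 s₀.e j ≠ 0 := by
        intro h
        exact D_coe_ne he j (Subtype.ext h)
      refine ⟨⟨u * v / prA 𝒮 s₀.e j, div_mem (mul_mem huF hvF)
        ((inf_le_left : F ⊓ M ≤ F) (prA_mem s₀.e j)), ?_⟩, (tyA_in ha.symm ⟨j, hj⟩).1 ht0⟩
      rw [div_pow, mul_pow, hu, hv]
      change prA 𝒮 d j * prA 𝒮 s₀.e j * (prA 𝒮 s₀.e j * prA 𝒮 (s a).e j) /
        prA 𝒮 s₀.e j ^ 2 = _
      field_simp
    · right
      refine ⟨h1, fun y hy hyy => ?_⟩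
      obtain ⟨t, ht, htt⟩ := (tyA_in ha ⟨j, hj⟩).1 ⟨y, hy, hyy⟩
      exact h2 t ht htt

/-- **One finite extension governs.** -/
theorem govern (𝒮 : Sy K) (n k m N : ℕ) (hk : 1 ≤ k) (hN : (N : ℝ) = ∑ j ∈ 𝒮.P, 𝒮.b j)
    (P : ∀ (F : IntermediateField K (Om K)) [NumberField F], (Fin 𝒮.r → 𝓞 F) → Prop)
    (hP : ∀ (F : IntermediateField K (Om K)) [NumberField F] (d : Fin 𝒮.r → 𝓞 F),
      P F d → Bd 𝒮 n F d) :
    ∃ (M : IntermediateField K (Om K)) (Θ : Finset ℝ), FiniteDimensional K M ∧ IsGalois K M ∧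
      Normal K M ∧ Θ.card ≤ 2 * n * (k * N) ^ 2 ∧
      ((∀ (F : IntermediateField K (Om K)) [NumberField F] (d : Fin 𝒮.r → 𝓞 F),
        P F d → Module.finrank K F ≤ m) →
          Module.finrank K M ≤ (4 ^ 𝒮.r * m).factorial ^ (2 * n * (k * N) ^ 2)) ∧
      (∀ (F : IntermediateField K (Om K)) [NumberField F] (d : Fin 𝒮.r → 𝓞 F)
        (_ : ∀ i, d i ≠ 0) (τ : ℝ) (X : ℝ → ℝ) (_ : 𝒮.IsSize d τ X), P F d →
        (τ ∉ Θ ∨ ∀ j ∈ 𝒮.P, ∀ y ∈ F ⊔ M, y ^ 2 ≠ prA 𝒮 d j) →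
        (∃ᶠ ε : ℝ in 𝓝[>] 0, |X ε| < 1 / k) ∧
          ∀ x : ℝ, Tendsto X (𝓝[>] 0) (𝓝 x) → |x| < 1 / k) ∧
      (∀ (F F₀ : IntermediateField K (Om K)) [NumberField F] [NumberField F₀],
        F₀ = F ⊓ M → ∀ (d : Fin 𝒮.r → 𝓞 F) (e : Fin 𝒮.r → 𝓞 F₀) (_ : ∀ i, d i ≠ 0)
        (_ : ∀ i, e i ≠ 0) (τ : ℝ) (X Y : ℝ → ℝ) (_ : 𝒮.IsSize d τ X) (_ : 𝒮.IsSize e τ Y),
        P F d → P F₀ e → Rel 𝒮 M d e →
        (∃ᶠ ε : ℝ in 𝓝[>] 0, |X ε - Y ε| < 1 / k) ∧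
          ∀ x y : ℝ, Tendsto X (𝓝[>] 0) (𝓝 x) → Tendsto Y (𝓝[>] 0) (𝓝 y) →
            |x - y| < 1 / k) := by
  classical
  obtain ⟨U, hU⟩ : ∃ U : Ultrafilter ℝ, (U : Filter ℝ) ≤ 𝓝[>] 0 :=
    ⟨Ultrafilter.of _, Ultrafilter.of_le _⟩
  have hkR : (0 : ℝ) < k := by exact_mod_cast hk
  have hdiv : ∀ {x : ℝ}, (k : ℝ) * |x| < 1 → |x| < 1 / k := by
    intro x hx
    rw [lt_div_iff₀ hkR, mul_comm]
    exact hx
  obtain ⟨M, Θ, hM1, hM2, hΘ, hdeg, hA, hB⟩ := stab (𝒮 := 𝒮) n k m N hN U hU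
    (fun A => (A.m true).F ≤ (A.m false).F ∧ P (A.m false).F (A.m false).d)
  have hsep : Algebra.IsSeparable K M := inferInstance
  refine ⟨M, Θ, hM1, IsGalois.mk, hM2, hΘ, fun h => hdeg fun A hA => ⟨hA.1, h _ _ hA.2⟩,
    fun F _ d hd τ X hX hPF hcond => ?_,
    fun F F₀ _ _ hF₀ d e hd he τ X Y hX hY hPF hPF₀ hR => ?_⟩
  · let D : Dt 𝒮 τ := ⟨F, inferInstance, d, hd, X, hX⟩
    have h1 := hA τ D (hP F d hPF) ⟨le_rfl, hPF⟩ hcond
    have h0 : Tendsto X U (𝓝 (ul U X)) := tendsto_ul (size_bdd 𝒮 hX) U hU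
    have h3 : |ul U X| < 1 / k := hdiv h1
    constructor
    · have h2 : ∃ᶠ ε : ℝ in 𝓝[>] 0, |X ε - 0| < 1 / k :=
        freq_of_lim hU h0 (by rw [sub_zero]; exact h3)
      simpa using h2
    · intro x hx
      have h4 := tendsto_nhds_unique h0 (hx.mono_left hU)
      rw [← h4]
      exact h3
  · let D : Dt 𝒮 τ := ⟨F, inferInstance, d, hd, X, hX⟩
    let D₀ : Dt 𝒮 τ := ⟨F₀, inferInstance, e, he, Y, hY⟩
    have hle : F₀ ≤ F := by
      rw [hF₀]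
      exact inf_le_left
    have h1 := hB τ D D₀ hF₀ (hP F d hPF) (hP F₀ e hPF₀) ⟨hle, hPF⟩ hR
    have h0 : Tendsto X U (𝓝 (ul U X)) := tendsto_ul (size_bdd 𝒮 hX) U hU
    have h0' : Tendsto Y U (𝓝 (ul U Y)) := tendsto_ul (size_bdd 𝒮 hY) U hU
    have h3 : |ul U X - ul U Y| < 1 / k := hdiv h1
    constructor
    · have h2 : ∃ᶠ ε : ℝ in 𝓝[>] 0, |(X ε - Y ε) - 0| < 1 / k :=
        freq_of_lim hU (h0.sub h0') (by rw [sub_zero]; exact h3)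
      simpa using h2
    · intro x y hx hy
      have h4 := tendsto_nhds_unique h0 (hx.mono_left hU)
      have h5 := tendsto_nhds_unique h0' (hy.mono_left hU)
      rw [← h4, ← h5]
      exact h3

theorem int_eq_of_abs {k : ℕ} (hk : 1 ≤ k) {a b : ℤ} {x : ℝ} (hx : |x| < 1 / k)
    (h : (x : ℝ) = a - b ∨ x = b - a) : a = b := by
  by_contra hne
  have h1 : a - b ≠ 0 := sub_ne_zero.2 hne
  have h2 := Int.one_le_abs h1
  have h3 : (1 : ℝ) ≤ |(a : ℝ) - b| := by exact_mod_cast h2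
  have h4 : (1 : ℝ) ≤ k := by exact_mod_cast hk
  have h5 : (1 : ℝ) / k ≤ 1 := by
    rw [div_le_one (by linarith)]
    exact h4
  rcases h with h | h
  · rw [h] at hx
    linarith
  · rw [h, abs_sub_comm] at hx
    linarith

end

end Pool.Agent.W353.AB
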