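import Pool.Agent.W353.AB.Core

/-! Transfer of correlations over an extension to the base field. -/

set_option autoImplicit false

namespace Pool.Agent.W353.AB

open Complex Filter Topology ComplexConjugate NumberField IsDedekindDomain Pool.Agent.H341R2
  Asymptotics Polynomial Pool.Agent.W353.TP
open Pool.Agent.H921R2.TatePole (nm two_le_nm R hc R_eq_hc R_le kerPrime hom_finite C0)

section
variable {K F : Type} [Field K] [NumberField K] [Field F] [NumberField F] [Algebra K F]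

/-- **Transfer of the correlations to the base field.** -/
theorem corr_gen (tF : HeightOneSpectrum (𝓞 F) → ℂ) (tK : HX K → ℂ) {b : ℝ}
    (hb : ∀ v, ‖tF v‖ ≤ b)
    (hk : ∀ (p : Nat.Primes) (ψ : 𝓞 F →+* ZMod (p : ℕ)),
      tF (kerPrime p ψ).1.1 = tK ⟨p, ψ.comp (algebraMap (𝓞 K) (𝓞 F))⟩)
    (D : 𝓞 F) (τ : ℝ) (w : HeightOneSpectrum (𝓞 F) → ℂ)
    (hw : ∀ v, w v = (chi D v : ℂ) * ((nm v : ℕ) : ℂ) ^ ((τ : ℂ) * I)) :
    (fun ε => ((sysK F).E ε fun v => (tF v * conj (w v)).re) -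
      (sysH K).E ε fun x : HX K => (tK x * conj (vq K D τ x)).re) =o[𝓝[>] 0] LL := by
  classical
  apply bdd_isLittleO
  have hw1 : ∀ v, ‖w v‖ ≤ 1 := by
    intro v
    rw [hw, norm_mul, Complex.norm_intCast]
    have : ‖((nm v : ℕ) : ℂ) ^ ((τ : ℂ) * I)‖ = 1 := (sysK F).norm_cpow_I v τ
    rw [this, mul_one]
    exact chi_abs _ v
  have hb' : ∀ v, |(tF v * conj (w v)).re| ≤ b := by
    intro v
    refine (Complex.abs_re_le_norm _).trans ?_
    rw [norm_mul, Complex.norm_conj]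
    exact (mul_le_of_le_one_right (norm_nonneg _) (hw1 v)).trans (hb v)
  refine ⟨b * Module.finrank ℚ F * C0, ?_⟩
  filter_upwards [self_mem_nhdsWithin] with ε hε
  have hε' : (0 : ℝ) < ε := hε
  have h1 := E_H hb' hε'
  rw [EH_push (K := K) hε' (fun x => hb' _)] at h1
  have h2 : push K (fun x : HX F => (tF (kerPrime x.1 x.2).1.1 *
      conj (w (kerPrime x.1 x.2).1.1)).re) =
      fun x : HX K => (tK x * conj (vq K D τ x)).re := by
    funext x
    rcases x with ⟨p, φ⟩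
    unfold push vq push
    have h4 : ∀ ψ ∈ Finset.univ.filter (fun ψ : 𝓞 F →+* ZMod (p : ℕ) => res K ψ = φ),
        (tF (kerPrime p ψ).1.1 * conj (w (kerPrime p ψ).1.1)).re =
        (tK ⟨p, φ⟩ * conj (((p : ℕ) : ℂ) ^ ((τ : ℂ) * I))).re * qh D ⟨p, ψ⟩ := by
      intro ψ hψ
      have hψ' := (Finset.mem_filter.1 hψ).2
      have e1 : tF (kerPrime p ψ).1.1 = tK ⟨p, φ⟩ := by
        rw [← hψ']
        exact hk p ψ
      rw [e1, hw, nm_kerPrime, map_mul, qh_chi]
      have e2 : conj ((chi D (kerPrime p ψ).1.1 : ℂ)) =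
          ((chi D (kerPrime p ψ).1.1 : ℝ) : ℂ) := by
        have : (chi D (kerPrime p ψ).1.1 : ℂ) =
            ((chi D (kerPrime p ψ).1.1 : ℝ) : ℂ) := by push_cast; rfl
        rw [this, Complex.conj_ofReal]
      rw [e2, mul_left_comm, Complex.re_ofReal_mul, mul_comm]
    rw [Finset.sum_congr rfl h4, ← Finset.mul_sum, map_mul, Complex.conj_ofReal,
      mul_left_comm, Complex.re_ofReal_mul, mul_comm]
  have h5 : ∀ y : ℝ, y = (sysH K).E ε (push K (fun x : HX F => (tF
      (kerPrime x.1 x.2).1.1 * conj (w (kerPrime x.1 x.2).1.1)).re)) →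
      y = (sysH K).E ε fun x : HX K => (tK x * conj (vq K D τ x)).re := by
    intro y hy
    rw [hy, h2]
  rw [← h5 _ rfl]
  exact h1

end

end Pool.Agent.W353.AB
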