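import Pool.Agent.W353.AB.Core
import Pool.Agent.W353.TP.VD

/-! Combinations of two twists, maximal orthogonal families. -/

set_option autoImplicit false

namespace Pool.Agent.W353.AB

open Complex Filter Topology ComplexConjugate NumberField IsDedekindDomain Pool.Agent.H341R2
  Asymptotics Pool.Agent.W353.TP

section
variable {K : Type} [Field K] [NumberField K]

/-- a twist over an intermediate field -/
structure Dt (𝒮 : Sy K) (τ : ℝ) where
  F : IntermediateField K (Om K)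
  nf : NumberField F
  d : Fin 𝒮.r → 𝓞 F
  hd : ∀ i, d i ≠ 0
  X : ℝ → ℝ
  hX : 𝒮.IsSize d τ X

instance Dt.instNF {𝒮 : Sy K} {τ : ℝ} (D : Dt 𝒮 τ) : NumberField D.F := D.nf

/-- a combination of two twists -/
structure Co (𝒮 : Sy K) where
  τ : ℝ
  m : Bool → Dt 𝒮 τ
  s : Bool → ℤ

variable {𝒮 : Sy K}

/-- the Gram matrix -/
noncomputable def GG {τ σ : ℝ} (A : Dt 𝒮 τ) (B : Dt 𝒮 σ) : ℝ := 𝒮.G A.d τ B.d σ

/-- the inner product of two combinations -/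
noncomputable def ip (A B : Co 𝒮) : ℝ :=
  ∑ b : Bool, ∑ c : Bool, (A.s b : ℝ) * (B.s c : ℝ) * GG (A.m b) (B.m c)

/-- the value of a combination -/
noncomputable def Co.val (U : Ultrafilter ℝ) (A : Co 𝒮) : ℝ :=
  ∑ b : Bool, (A.s b : ℝ) * ul U (A.m b).X

theorem co_ineq (U : Ultrafilter ℝ) (hU : (U : Filter ℝ) ≤ 𝓝[>] 0)
    (T : Finset (Co 𝒮)) (a : Co 𝒮 → ℝ) :
    (∑ A ∈ T, a A * A.val U) ^ 2 ≤
      (∑ j ∈ 𝒮.P, 𝒮.b j) * ∑ A ∈ T, ∑ B ∈ T, a A * a B * ip A B := by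
  classical
  have hmain := fun (η : ℝ) (hη : 0 < η) => main_ineq 𝒮 (T ×ˢ (Finset.univ : Finset Bool))
    (fun k : Co 𝒮 × Bool => (k.1.m k.2).F) (fun k => (k.1.m k.2).d) (fun k => k.1.τ)
    (fun k _ i => (k.1.m k.2).hd i) (fun k => (k.1.m k.2).X) (fun k _ => (k.1.m k.2).hX)
    (fun k => a k.1 * k.1.s k.2) hη
  have hlim : Tendsto (fun ε : ℝ => (∑ k ∈ T ×ˢ (Finset.univ : Finset Bool),
      (a k.1 * k.1.s k.2) * (k.1.m k.2).X ε) ^ 2) U
      (𝓝 ((∑ k ∈ T ×ˢ (Finset.univ : Finset Bool),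
        (a k.1 * k.1.s k.2) * ul U (k.1.m k.2).X) ^ 2)) :=
    (tendsto_finsetSum _ fun k _ =>
      (tendsto_ul (size_bdd 𝒮 (k.1.m k.2).hX) U hU).const_mul _).pow 2
  have hle : ∀ η : ℝ, 0 < η → (∑ k ∈ T ×ˢ (Finset.univ : Finset Bool),
        (a k.1 * k.1.s k.2) * ul U (k.1.m k.2).X) ^ 2 ≤
      (∑ j ∈ 𝒮.P, 𝒮.b j) * (∑ k ∈ T ×ˢ (Finset.univ : Finset Bool),
        ∑ l ∈ T ×ˢ (Finset.univ : Finset Bool),
      (a k.1 * k.1.s k.2) * (a l.1 * l.1.s l.2) * GG (k.1.m k.2) (l.1.m l.2)) + η := by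
    intro η hη
    exact le_of_tendsto hlim (hU (hmain η hη))
  have h1 := le_of_forall_pos_le_add hle
  have e1 : ∑ k ∈ T ×ˢ (Finset.univ : Finset Bool), (a k.1 * k.1.s k.2) *
      ul U (k.1.m k.2).X = ∑ A ∈ T, a A * A.val U := by
    rw [Finset.sum_product]
    refine Finset.sum_congr rfl fun A hA => ?_
    unfold Co.val
    rw [Finset.mul_sum]
    refine Finset.sum_congr rfl fun b _ => ?_
    rw [mul_assoc]
  have e2 : ∑ k ∈ T ×ˢ (Finset.univ : Finset Bool), ∑ l ∈ T ×ˢ (Finset.univ : Finset Bool),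
      (a k.1 * k.1.s k.2) * (a l.1 * l.1.s l.2) * GG (k.1.m k.2) (l.1.m l.2) =
      ∑ A ∈ T, ∑ B ∈ T, a A * a B * ip A B := by
    rw [Finset.sum_product]
    refine Finset.sum_congr rfl fun A hA => ?_
    have e3 : ∀ b : Bool, ∑ l ∈ T ×ˢ (Finset.univ : Finset Bool),
        (a A * A.s b) * (a l.1 * l.1.s l.2) * GG (A.m b) (l.1.m l.2) =
        ∑ B ∈ T, ∑ c : Bool, (a A * A.s b) * (a B * B.s c) * GG (A.m b) (B.m c) := by
      intro b
      rw [Finset.sum_product]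
    rw [Finset.sum_congr rfl fun b _ => e3 b, Finset.sum_comm]
    refine Finset.sum_congr rfl fun B hB => ?_
    unfold ip
    rw [Finset.mul_sum]
    refine Finset.sum_congr rfl fun b _ => ?_
    rw [Finset.mul_sum]
    refine Finset.sum_congr rfl fun c _ => ?_
    ring
  rw [← e1, ← e2]
  exact h1

/-- exceptional combinations -/
def Exc (U : Ultrafilter ℝ) (Q : Co 𝒮 → Prop) (n k N : ℕ) (A : Co 𝒮) : Prop :=
  1 ≤ k * |A.val U| ∧ ip A A ≤ n * N ∧ Q A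

theorem exc_card (U : Ultrafilter ℝ) (hU : (U : Filter ℝ) ≤ 𝓝[>] 0)
    (Q : Co 𝒮 → Prop) (n k N : ℕ) (hN : (N : ℝ) = ∑ j ∈ 𝒮.P, 𝒮.b j)
    (T : Finset (Co 𝒮)) (hT : ∀ A ∈ T, Exc U Q n k N A)
    (horth : ∀ A ∈ T, ∀ B ∈ T, A ≠ B → ip A B = 0) : T.card ≤ n * (k * N) ^ 2 := by
  classical
  have h1 := orth_bound T (fun A => A.val U) ip N n
    (Nat.cast_nonneg N) (Nat.cast_nonneg n)
    (fun c => by rw [hN]; exact co_ineq U hU T c)
    (fun A hA => (hT A hA).2.1) horth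
  have h2 : (T.card : ℝ) ≤ k ^ 2 * ∑ A ∈ T, (A.val U) ^ 2 := by
    rw [Finset.card_eq_sum_ones, Finset.mul_sum]
    push_cast
    refine Finset.sum_le_sum fun A hA => ?_
    have h4 := (hT A hA).1
    have h5 : (k : ℝ) ^ 2 * (A.val U) ^ 2 = (k * |A.val U|) ^ 2 := by
      rw [mul_pow, sq_abs]
    rw [h5]
    exact one_le_pow₀ h4
  have h3 : (T.card : ℝ) ≤ k ^ 2 * (n * N ^ 2) :=
    h2.trans (mul_le_mul_of_nonneg_left h1 (by positivity))
  have h4 : ((n * (k * N) ^ 2 : ℕ) : ℝ) = k ^ 2 * (n * N ^ 2) := by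
    push_cast
    ring
  rw [← h4] at h3
  exact_mod_cast h3

/-- a maximal orthogonal family of exceptional combinations -/
theorem exists_max (U : Ultrafilter ℝ) (hU : (U : Filter ℝ) ≤ 𝓝[>] 0)
    (Q : Co 𝒮 → Prop) (n k N : ℕ) (hN : (N : ℝ) = ∑ j ∈ 𝒮.P, 𝒮.b j) :
    ∃ T : Finset (Co 𝒮), T.card ≤ n * (k * N) ^ 2 ∧ (∀ A ∈ T, Q A) ∧
      ∀ B : Co 𝒮, Exc U Q n k N B → ¬ ∀ A ∈ T, ip A B = 0 ∧ ip B A = 0 := by
  classical
  by_contra hcon
  push Not at hcon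
  have key : ∀ l : ℕ, ∃ T : Finset (Co 𝒮), T.card = l ∧ (∀ A ∈ T, Exc U Q n k N A) ∧
      ∀ A ∈ T, ∀ B ∈ T, A ≠ B → ip A B = 0 := by
    intro l
    induction l with
    | zero => exact ⟨∅, rfl, by simp, by simp⟩
    | succ l ih =>
      obtain ⟨T, hc, hT, ho⟩ := ih
      obtain ⟨B, hB, hBo⟩ := hcon T (exc_card U hU Q n k N hN T hT ho)
        (fun A hA => (hT A hA).2.2)
      have hBT : B ∉ T := by
        intro hBT
        have h1 := co_ineq U hU {B} (fun _ => 1)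
        simp only [Finset.sum_singleton, one_mul] at h1
        rw [(hBo B hBT).1, mul_zero] at h1
        have h2 := pow_eq_zero_iff (two_ne_zero) |>.1 (le_antisymm h1 (sq_nonneg _))
        have h3 := hB.1
        rw [h2, abs_zero, mul_zero] at h3
        linarith
      refine ⟨insert B T, ?_, ?_, ?_⟩
      · rw [Finset.card_insert_of_notMem hBT, hc]
      · intro A hA
        rcases Finset.mem_insert.1 hA with rfl | hA
        · exact hB
        · exact hT A hA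
      · intro A hA A' hA' hne
        rcases Finset.mem_insert.1 hA with h1 | h1
        · rcases Finset.mem_insert.1 hA' with h2 | h2
          · exact absurd (h1.trans h2.symm) hne
          · rw [h1]
            exact (hBo A' h2).2
        · rcases Finset.mem_insert.1 hA' with h2 | h2
          · rw [h2]
            exact (hBo A h1).1
          · exact ho A h1 A' h2 hne
  obtain ⟨T, hc, hT, ho⟩ := key (n * (k * N) ^ 2 + 1)
  have := exc_card U hU Q n k N hN T hT ho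
  omega

theorem G_eq {F F' : Type} [Field F] [NumberField F] [Algebra K F]
    [Field F'] [NumberField F'] [Algebra K F'] (d : Fin 𝒮.r → 𝓞 F) (τ : ℝ)
    (e : Fin 𝒮.r → 𝓞 F') (σ : ℝ) [Decidable (τ = σ)] :
    𝒮.G d τ e σ = ∑ j ∈ 𝒮.P, 𝒮.b j * (if τ = σ then
      (inum K F F' ((𝒮.D d j : 𝓞 F) : F) ((𝒮.D e j : 𝓞 F') : F') : ℝ) else 0) := by
  unfold Sy.G
  refine Finset.sum_congr rfl fun j _ => ?_
  congr 1
  by_cases h : τ = σ
  · rw [if_pos h, if_pos h]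
  · rw [if_neg h, if_neg h]

theorem GG_symm {τ σ : ℝ} (A : Dt 𝒮 τ) (B : Dt 𝒮 σ) : GG A B = GG B A := by
  classical
  unfold GG
  rw [G_eq, G_eq]
  refine Finset.sum_congr rfl fun j _ => ?_
  by_cases h : τ = σ
  · rw [if_pos h, if_pos h.symm, inum_comm' (𝒮.D_ne A.hd j) (𝒮.D_ne B.hd j)]
  · rw [if_neg h, if_neg (Ne.symm h)]

theorem ip_symm (A B : Co 𝒮) : ip A B = ip B A := by
  unfold ip
  rw [Finset.sum_comm]
  refine Finset.sum_congr rfl fun c _ => Finset.sum_congr rfl fun b _ => ?_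
  rw [GG_symm]
  ring

theorem ip_tau (A B : Co 𝒮) (h : A.τ ≠ B.τ) : ip A B = 0 := by
  classical
  unfold ip
  refine Finset.sum_eq_zero fun b _ => Finset.sum_eq_zero fun c _ => ?_
  unfold GG
  rw [G_eq]
  simp only [if_neg h, mul_zero, Finset.sum_const_zero]

/-- bounded intertwining number -/
def Bd (𝒮 : Sy K) (n : ℕ) (F : Type) [Field F] [NumberField F] [Algebra K F]
    (d : Fin 𝒮.r → 𝓞 F) : Prop :=
  ∀ j ∈ 𝒮.P, inum K F F ((𝒮.D d j : 𝓞 F) : F) ((𝒮.D d j : 𝓞 F) : F) ≤ n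

theorem Bd_of_finrank {n : ℕ} {F : Type} [Field F] [NumberField F] [Algebra K F]
    (h : Module.finrank K F ≤ n) (d : Fin 𝒮.r → 𝓞 F) : Bd 𝒮 n F d :=
  fun _ _ => (inum_le K F F _ _).trans h

/-- the combination of two twists with a coefficient -/
def Co.two {τ : ℝ} (D D₀ : Dt 𝒮 τ) (t : ℤ) : Co 𝒮 where
  τ := τ
  m b := match b with
    | false => D
    | true => D₀
  s b := match b with
    | false => 1
    | true => t

theorem GG_nonneg {τ σ : ℝ} (A : Dt 𝒮 τ) (B : Dt 𝒮 σ) : 0 ≤ GG A B := by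
  classical
  unfold GG
  rw [G_eq]
  refine Finset.sum_nonneg fun j hj => mul_nonneg (𝒮.hb j hj) ?_
  split_ifs
  · exact Nat.cast_nonneg _
  · exact le_rfl

theorem GG_self {n N : ℕ} (hN : (N : ℝ) = ∑ j ∈ 𝒮.P, 𝒮.b j) {τ : ℝ} (A : Dt 𝒮 τ)
    (h : Bd 𝒮 n A.F A.d) : GG A A ≤ n * N := by
  classical
  unfold GG
  rw [G_eq, hN, Finset.mul_sum]
  refine Finset.sum_le_sum fun j hj => ?_
  rw [if_pos rfl, mul_comm]
  refine mul_le_mul_of_nonneg_right ?_ (𝒮.hb j hj)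
  exact_mod_cast h j hj

theorem ip_two_self (n N : ℕ) (hN : (N : ℝ) = ∑ j ∈ 𝒮.P, 𝒮.b j) {τ : ℝ} (D D₀ : Dt 𝒮 τ) (t : ℤ)
    (ht : t = 0 ∨ t = -1) (h1 : Bd 𝒮 n D.F D.d) (h2 : Bd 𝒮 n D₀.F D₀.d) :
    ip (Co.two D D₀ t) (Co.two D D₀ t) ≤ ((2 * n : ℕ) : ℝ) * N := by
  classical
  have g1 := GG_self hN D h1
  have g2 := GG_self hN D₀ h2
  have g3 := GG_nonneg D D₀
  have g4 := GG_nonneg D₀ D
  have g5 := GG_nonneg D₀ D₀
  have g6 : 0 ≤ (n : ℝ) * N := by positivity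
  unfold ip
  rw [Fintype.sum_bool, Fintype.sum_bool, Fintype.sum_bool]
  change (t : ℝ) * t * GG D₀ D₀ + (t : ℝ) * ((1 : ℤ) : ℝ) * GG D₀ D +
    (((1 : ℤ) : ℝ) * t * GG D D₀ + ((1 : ℤ) : ℝ) * ((1 : ℤ) : ℝ) * GG D D) ≤ _
  push_cast
  rcases ht with rfl | rfl
  · push_cast
    linarith
  · push_cast
    linarith

end

end Pool.Agent.W353.AB
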